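import Pool.Agent.H56.G3.TS
import Pool.Agent.H78.GS.Defs

/-!
# Theorem (G), MP_c59857_nt, section 3b: edges and matching, definitions
-/

set_option autoImplicit false

namespace Pool.Agent.H3.GS3

open Finset Pool.Agent.H6.N4D Pool.Agent.H93.EB Pool.Agent.H93.GS Pool.Agent.H56.G3

/-- the sum `- g (p m)` -/
noncomputable def ngp (p : ℕ) (g : Ex) : Ex := ⟨g.k, fun i => - g.c i, fun i => p * g.a i⟩

/-- the window `(n', n' + N']` is the window `(n, n + N]` divided by `p` -/
structure Lk (p N n N' n' : ℕ) : Prop where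
  n1 : |(p : ℝ) * n' - n| ≤ 2 * p
  n2 : |(p : ℝ) * N' - N| ≤ 3 * p

/-- the phase of a complex number, divided by `2 π` -/
noncomputable def ar2 (z : ℂ) : ℝ := Complex.arg z / (2 * Real.pi)

/-- the sheets of the sum `g` with coefficients at least `kap` -/
noncomputable def sht (kap : ℝ) (g : Ex) : Finset ℕ := (range g.k).filter (fun i => kap ≤ ‖g.c i‖)

/-- no coefficient is near `kap` -/
def Cl (kap : ℝ) (g : Ex) : Prop := ∀ i < g.k, ‖g.c i‖ < kap / 2 ∨ 2 * kap ≤ ‖g.c i‖

/-- `g t` is a near optimal sum of the window of `t` with few separated frequencies -/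
def Rg (th Lam κ : ℝ) (lam : ℕ → ℝ) (S : Par) (g : ℤ → Ex) (t : ℤ) : Prop :=
  (g t).k ≤ r0 th ∧ Sp (g t) (Lam / Nt S t) ∧ df th lam 1 (Nt S t) (S.n t) (g t) ≤ κ

/-- the frequencies of the sheets -/
noncomputable def tht (g : ℤ → Ex) (t : ℤ) (j : ℕ) : ℝ := (g t).a j

/-- the phases of the sheets -/
noncomputable def phi (S : Par) (g : ℤ → Ex) (t : ℤ) (j : ℕ) : ℝ :=
  ar2 ((g t).c j * ee ((g t).a j * S.n t))

end Pool.Agent.H3.GS3
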