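import Pool.Agent.H3.GS3.Defs

/-!
# Theorem (G), MP_c59857_nt, section 3b: edges and matching, statements
-/

set_option autoImplicit false

namespace Pool.Agent.H3.GS3

open Finset Pool.Agent.H6.N4D Pool.Agent.H93.EB Pool.Agent.H93.GS Pool.Agent.H56.G3

/-! ## the energy along an edge -/

/-- WEJ. The functional along an edge. -/
def T_WEJ : Prop := ∀ (th : ℝ) (lam : ℕ → ℝ) (p N n N' n' : ℕ) (g : Ex), 0 < th → th ≤ 1 →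
  Lio lam → B1 lam → p.Prime → 10 * p ≤ N → Lk p N n N' n' → g.nm ≤ 2 / th →
    |J th lam 1 N' n' (ngp p g) - J th lam p N n g| ≤ 100 * p / (N * th ^ 2)

/-- WEN. The energy along an edge. -/
def T_WEN : Prop := ∀ (th : ℝ) (lam : ℕ → ℝ) (p N n N' n' : ℕ), 0 < th → th ≤ 1 →
  Lio lam → B1 lam → p.Prime → 10 * p ≤ N → Lk p N n N' n' →
    |En th lam 1 N' n' - En th lam p N n| ≤ 100 * p / (N * th ^ 2)

/-- WTI. The functional on the multiples of `p` and the tests. -/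
def T_WTI : Prop := ∀ (th : ℝ) (lam : ℕ → ℝ) (p N n : ℕ) (g : Ex), 1 ≤ p → 1 ≤ N →
  |J th lam p N n g - J th lam 1 N n g| ≤
    2 * ∑ i ∈ range g.k, ‖g.c i‖ * zz lam p N n (g.a i) (fun _ => 1) +
      |(∑ m ∈ Ioc n (n + N), D p m * ‖g.f m‖ ^ 2) / N|

/-- WZS. The test of a window and the sliding mean of the tests. -/
def T_WZS : Prop := ∀ (lam : ℕ → ℝ) (p M N n : ℕ) (α : ℝ), B1 lam → 1 ≤ p → p ≤ M → M ≤ N →
  zz lam p N n α (fun _ => 1) ≤ sl N n (fun v => zz lam p M v α (fun _ => 1)) + 10 * M / N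

/-- WES. The energy of a window and the sliding mean of the energies, multiples of `q`. -/
def T_WES : Prop := ∀ (th : ℝ) (lam : ℕ → ℝ) (q M N n : ℕ), 0 < th → th ≤ 1 → B1 lam →
  1 ≤ q → q ≤ M → M ≤ N →
    En th lam q N n ≤ sl N n (fun v => En th lam q M v) + 40 * M / (N * th ^ 2)

/-- WDG. The mean of `|g|^2` on the multiples of `p`. -/
def T_WDG : Prop := ∀ (Lam : ℝ) (p N n : ℕ) (g : Ex), 0 < Lam → 1 ≤ p → 1 ≤ N →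
  Sp g (Lam / N) →
  (∀ i < g.k, ∀ j < g.k, i ≠ j → p * Lam / N ≤ nd (p * (g.a i - g.a j))) →
    |(∑ m ∈ Ioc n (n + N), D p m * ‖g.f m‖ ^ 2) / N| ≤ g.nm ^ 2 * (1 / Lam + p / N)

/-- WED. A near optimal sum goes to a near optimal sum along a good edge. -/
def T_WED : Prop := ∀ (th Lam κa κb κc κd : ℝ) (lam : ℕ → ℝ) (p M N n N' n' : ℕ) (g : Ex),
  0 < th → th ≤ 1 → 0 < Lam → Lio lam → B1 lam → p.Prime → p ≤ M → 10 * M ≤ N →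
  Lk p N n N' n' → g.nm ≤ 2 / th → df th lam 1 N n g ≤ κa →
  sl N n (En th lam 1 M) - En th lam 1 N n ≤ κb →
  sl N n (fun v => |En th lam p M v - En th lam 1 M v|) ≤ κc →
  2 * ∑ i ∈ range g.k, ‖g.c i‖ * zz lam p N n (g.a i) (fun _ => 1) ≤ κd →
  Sp g (Lam / N) →
  (∀ i < g.k, ∀ j < g.k, i ≠ j → p * Lam / N ≤ nd (p * (g.a i - g.a j))) →
    df th lam 1 N' n' (ngp p g) ≤
      κa + κb + κc + κd + 4 / (th ^ 2 * Lam) + 300 * M / (N * th ^ 2)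

/-! ## matching of two sums -/

/-- WIA. The coefficient of a sum at a separated frequency. -/
def T_WIA : Prop := ∀ (Lam : ℝ) (N n : ℕ) (g : Ex) (β : ℝ), 0 < Lam → 1 ≤ N →
  (∀ i < g.k, Lam / N ≤ nd (g.a i - β)) → ‖cf N n g.f β‖ ≤ g.nm / Lam

/-- WIB. Two exponentials which are close. -/
def T_WIB : Prop := ∀ (kap e₀ : ℝ), 0 < kap → 0 < e₀ → ∃ (κ : ℝ) (N₀ : ℕ), 0 < κ ∧
  ∀ (N n : ℕ) (c d : ℂ) (a b : ℝ), N₀ ≤ N → kap ≤ ‖c‖ → ‖c‖ ≤ 1 / kap → ‖d‖ ≤ 1 / kap →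
    (∑ m ∈ Ioc n (n + N), ‖c * ee (a * m) - d * ee (b * m)‖ ^ 2) / N ≤ κ →
      nd (a - b) ≤ e₀ / N ∧ ‖c * ee (a * n) - d * ee (b * n)‖ ≤ e₀

/-- WIN. Matching of two separated sums which are close. -/
def T_WIN : Prop := ∀ (th kap e₀ : ℝ), 0 < th → th ≤ 1 → 0 < kap → 0 < e₀ →
  ∃ (Lam κ : ℝ) (N₀ : ℕ), 1 ≤ Lam ∧ 0 < κ ∧ ∀ (N n : ℕ) (g h : Ex), N₀ ≤ N → g.nm ≤ 2 / th →
    h.nm ≤ 2 / th → Sp g (Lam / N) → Sp h (Lam / N) → d2 1 N n g h ≤ κ →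
    ∀ i < g.k, kap ≤ ‖g.c i‖ → ∃ j < h.k, nd (g.a i - h.a j) ≤ e₀ / N ∧
      ‖g.c i * ee (g.a i * n) - h.c j * ee (h.a j * n)‖ ≤ e₀

/-- WPH. The phases of two complex numbers which are close. -/
def T_WPH : Prop := ∀ (kap δ : ℝ) (z w : ℂ), 0 < kap → kap ≤ ‖z‖ → ‖z - w‖ ≤ δ → δ ≤ kap / 2 →
  nd (ar2 z - ar2 w) ≤ δ / kap

/-- WPR. The phase of a product with `ee x`. -/
def T_WPR : Prop := ∀ (z : ℂ) (x : ℝ), z ≠ 0 → nd (ar2 (z * ee x) - ar2 z - x) = 0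

/-- WMT. Matching of the sheets of two separated sums which are close. -/
def T_WMT : Prop := ∀ (th kap e₀ : ℝ), 0 < th → th ≤ 1 → 0 < kap → 0 < e₀ →
  ∃ (Lam κ : ℝ) (N₀ : ℕ), 1 ≤ Lam ∧ 0 < κ ∧ ∀ (N n : ℕ) (g h : Ex), N₀ ≤ N → g.nm ≤ 2 / th →
    h.nm ≤ 2 / th → Sp g (Lam / N) → Sp h (Lam / N) → d2 1 N n g h ≤ κ → Cl kap g → Cl kap h →
    Pool.Agent.H78.GS.Mat (fun j i => nd (h.a i - g.a j) ≤ e₀ / N ∧
      nd (ar2 (h.c i * ee (h.a i * n)) - ar2 (g.c j * ee (g.a j * n))) ≤ e₀)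
      (sht kap g) (sht kap h)

/-! ## the exceptional prime numbers of a window -/

/-- WTW. One difference of two frequencies has at most one exceptional prime number. -/
def T_WTW : Prop := ∀ (A : ℝ) (Q : Finset ℕ) (B N : ℕ) (δ : ℝ), 0 < A →
  (∀ p ∈ Q, p.Prime ∧ p ≤ B) → 4 * A * (B : ℝ) ^ 2 ≤ N → A / N ≤ nd δ →
    ∃ p₀ : ℕ, ∀ p ∈ Q, p ≠ p₀ → p * A / N ≤ nd (p * δ)

/-- WBP. The weight of the bad prime numbers of a good window with a separated sum. -/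
def T_WBP : Prop := ∀ (th Lam ν κd : ℝ), 0 < th → th ≤ 1 → 0 < Lam → 0 < ν →
  0 < κd → ∃ κ A : ℝ, 0 < κ ∧ 1 ≤ A ∧ ∀ (lam : ℕ → ℝ) (m N n : ℕ) (g : Ex),
    B1 lam → A ≤ m → A * 2 ^ m ≤ N → g.k ≤ r0 th → g.nm ≤ 2 / th → Sp g (Lam / N) →
    sl N n (fun v => zs lam m v + ts th lam m v) ≤ κ →
    ∃ Bd : Finset ℕ, ∑ p ∈ Bd, 1 / (p : ℝ) ≤ ν ∧ ∀ p ∈ QQ m, p ∉ Bd →
      sl N n (fun v => |En th lam p (2 ^ m) v - En th lam 1 (2 ^ m) v|) ≤ κd ∧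
      2 * ∑ i ∈ range g.k, ‖g.c i‖ * zz lam p N n (g.a i) (fun _ => 1) ≤ κd ∧
      ∀ i < g.k, ∀ j < g.k, i ≠ j → p * Lam / N ≤ nd (p * (g.a i - g.a j))

end Pool.Agent.H3.GS3
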