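import Pool.Agent.H3.GS3.TB

/-!
# Theorem (G), MP_c59857_nt, section 3b: from good windows to the bundle, statements
-/

set_option autoImplicit false

namespace Pool.Agent.H3.GS3

open Finset Pool.Agent.H6.N4D Pool.Agent.H93.EB Pool.Agent.H93.GS Pool.Agent.H56.G3
open Pool.Agent.H78.GS (Mat RS RE Bnd)

/-- WSZ. Sizes of the windows of the stretch, along an edge and along a shift. -/
def T_WSZ : Prop := ∀ (K r : ℕ) (A : ℝ), 1 ≤ K → ∃ X₀ : ℝ, ∀ (S : Par) (k₁ : ℕ),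
  Str3 S K r k₁ → X₀ ≤ S.X → ∀ t ∈ S.I,
    A ≤ Nt S t ∧ (Nt S t : ℝ) ≤ S.rho * S.x t ∧ S.rho * S.x t ≤ 1.01 * Nt S t ∧
    ∀ p ∈ S.Q, t - S.l p ∈ S.I → 10 * p ≤ Nt S t ∧
      Lk p (Nt S t) (S.n t) (Nt S (t - S.l p)) (S.n (t - S.l p))

/-- WTH. The choice of the threshold of the coefficients. -/
def T_WTH : Prop := ∀ (S : Par) (g : ℤ → Ex) (r s : ℕ) (k₀ : ℝ), 0 < k₀ → 1 ≤ s →
  (∀ t, (g t).k ≤ r) → ∃ i < s, S.cnt (fun t => ¬ Cl (k₀ / 4 ^ i) (g t)) ≤ r / s * S.I.card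

/-- WMS. The relation of two overlapping windows of the stretch. -/
def T_WMS : Prop := ∀ (th kap e₀ : ℝ), 0 < th → th ≤ 1 → 0 < kap → 0 < e₀ →
  ∃ (Lam κ : ℝ), 1 ≤ Lam ∧ 0 < κ ∧ ∀ K r : ℕ, 1 ≤ K → ∃ X₀ : ℝ,
  ∀ (S : Par) (k₁ : ℕ) (lam : ℕ → ℝ) (g : ℤ → Ex) (t : ℤ) (w : ℕ),
    Str3 S K r k₁ → X₀ ≤ S.X → B1 lam → (w : ℝ) * S.h ≤ S.rho / 4 → t ∈ S.I →
    t + (w : ℤ) ∈ S.I → Gt th κ lam S t → Rg th Lam κ lam S g t →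
    Rg th Lam κ lam S g (t + w) → Cl kap (g t) → Cl kap (g (t + w)) →
      Mat (RS S e₀ (tht g) (phi S g) w t) (sht kap (g t)) (sht kap (g (t + w)))

/-- WME. The relation of two windows of the stretch along a good prime number. -/
def T_WME : Prop := ∀ (th kap e₀ : ℝ), 0 < th → th ≤ 1 → 0 < kap → 0 < e₀ →
  ∃ (Lam κd : ℝ), 1 ≤ Lam ∧ 0 < κd ∧ ∀ K r : ℕ, 1 ≤ K → ∃ X₀ : ℝ,
  ∀ (S : Par) (k₁ : ℕ) (lam : ℕ → ℝ) (g : ℤ → Ex) (t : ℤ) (p i : ℕ),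
    Str3 S K r k₁ → X₀ ≤ S.X → Lio lam → B1 lam → t ∈ S.I → t - S.l p ∈ S.I → p ∈ S.Q →
    i < 2 * K + 2 → p ∈ QQ (lv S.X i) →
    Gt th κd lam S t → Rg th Lam κd lam S g t → Rg th Lam κd lam S g (t - S.l p) →
    sl (Nt S t) (S.n t)
      (fun v => |En th lam p (2 ^ lv S.X i) v - En th lam 1 (2 ^ lv S.X i) v|) ≤ κd →
    2 * ∑ i ∈ range (g t).k, ‖(g t).c i‖ * zz lam p (Nt S t) (S.n t) ((g t).a i)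
      (fun _ => 1) ≤ κd →
    (∀ i < (g t).k, ∀ j < (g t).k, i ≠ j →
      p * Lam / Nt S t ≤ nd (p * ((g t).a i - (g t).a j))) →
    Cl kap (g t) → Cl kap (g (t - S.l p)) →
      Mat (RE S e₀ (tht g) (phi S g) p t) (sht kap (g t)) (sht kap (g (t - S.l p)))

/-- WBE. The relations along the edges, counted. -/
def T_WBE : Prop := ∀ (th kap e₀ ε : ℝ) (K : ℕ), 0 < th → th ≤ 1 → 0 < kap → 0 < e₀ → 0 < ε →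
  1 ≤ K → ∃ (Lam : ℝ), 1 ≤ Lam ∧ ∀ Lam' : ℝ, Lam ≤ Lam' → ∃ κ : ℝ, 0 < κ ∧
  ∀ r : ℕ, ∃ X₀ : ℝ, ∀ (S : Par) (k₁ : ℕ) (lam : ℕ → ℝ) (g : ℤ → Ex) (Bd : ℤ → Prop),
    Str3 S K r k₁ → X₀ ≤ S.X → Lio lam → B1 lam →
    (∀ t ∈ S.I, ¬ Bd t → Gt th κ lam S t ∧ Rg th Lam' κ lam S g t ∧ Cl kap (g t)) →
      ∑ p ∈ S.Q, 1 / (p : ℝ) * S.cnt (fun t => t - S.l p ∈ S.I ∧ ¬ Bd t ∧
        ¬ Bd (t - S.l p) ∧ ¬ Mat (RE S e₀ (tht g) (phi S g) p t)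
          (sht kap (g t)) (sht kap (g (t - S.l p)))) ≤ ε * S.N

/-- BN. From good windows to the bundle. -/
def T_BN : Prop := ∀ th c : ℝ, 0 < th → th ≤ 1 → 0 < c → c ≤ 1 →
  ∀ (K : ℕ) (ε e₀ : ℝ), 1 ≤ K → 0 < ε → 0 < e₀ → ∃ κ ε₁ : ℝ, 0 < κ ∧ 0 < ε₁ ∧
  ∀ r : ℕ, ∃ X₀ : ℝ, ∀ (S : Par) (k₁ : ℕ) (lam : ℕ → ℝ), Str3 S K r k₁ → X₀ ≤ S.X →
    Lio lam → B1 lam → S.cnt (fun t => ¬ Gt th κ lam S t) ≤ ε₁ * S.N →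
    c / 20 * S.N ≤ S.cnt (fun t => c / 20 ≤ En th lam 1 (Nt S t) (S.n t)) →
    ∃ (F : ℤ → Finset ℕ) (θ φ : ℤ → ℕ → ℝ), Bnd S ε e₀ (c / 40) (r0 th) F θ φ

end Pool.Agent.H3.GS3
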